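import Mathlib

/-! Definitions for the theorem on Fuglede-Kadison determinants twisted by finite-dimensional
representations. -/

set_option autoImplicit false

namespace Pool.Agent.Lib.MP_8f66f0_al_Twist

/-- The adjoint of a matrix over the complex group ring: conjugate transpose, with the involution
which sends `∑ a_g g` to `∑ (conj a_g) g⁻¹`. -/
noncomputable def adj {Γ ι : Type*} [Group Γ] (X : Matrix ι ι (MonoidAlgebra ℂ Γ)) :
    Matrix ι ι (MonoidAlgebra ℂ Γ) :=
  Matrix.of fun x y => (X y x).coeff.sum fun g a => MonoidAlgebra.single g⁻¹ (star a)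

/-- The trace of a matrix over the complex group ring with respect to a function `τ` on the group:
the sum over the diagonal entries `∑ a_g g` of `∑ a_g τ(g)`. -/
noncomputable def tauTrace {Γ ι : Type*} [Group Γ] [Fintype ι] (τ : Γ → ℂ)
    (X : Matrix ι ι (MonoidAlgebra ℂ Γ)) : ℂ :=
  ∑ x, (X x x).coeff.sum fun g a => a * τ g

/-- The image of a matrix `A` over the integral group ring under a representation `ρ`, as a matrix
of size `nk` over the complex group ring: the tensor product of `ρ` with the identity of `Γ`. -/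
noncomputable def twist {Γ : Type*} [Group Γ] {n k : ℕ}
    (ρ : Γ →* Matrix.GeneralLinearGroup (Fin k) ℂ)
    (A : Matrix (Fin n) (Fin n) (MonoidAlgebra ℤ Γ)) :
    Matrix (Fin n × Fin k) (Fin n × Fin k) (MonoidAlgebra ℂ Γ) :=
  Matrix.of fun x y => (A x.1 y.1).coeff.sum fun g a =>
    MonoidAlgebra.single g ((a : ℂ) * (ρ g : Matrix (Fin k) (Fin k) ℂ) x.2 y.2)

/-- `τ` is a pointwise limit of normalized characters of finite-dimensional unitary
representations. -/
def IsFDTrace {Γ : Type*} [Group Γ] (τ : Γ → ℂ) : Prop :=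
  ∀ (F : Finset Γ) (δ : ℝ), 0 < δ → ∃ (m : ℕ) (σ : Γ →* Matrix.unitaryGroup (Fin m) ℂ),
    0 < m ∧ ∀ g ∈ F, ‖τ g - (σ g : Matrix (Fin m) (Fin m) ℂ).trace / m‖ < δ

/-- The restriction of `τ` to every finitely generated subgroup is a pointwise limit of normalized
characters of finite-dimensional unitary representations of that subgroup. -/
def IsLocalFDTrace {Γ : Type*} [Group Γ] (τ : Γ → ℂ) : Prop :=
  ∀ H : Subgroup Γ, H.FG → IsFDTrace fun h : H => τ h

open Classical in
/-- The regular trace of the quotient: `1` on the kernel of `π`, `0` elsewhere. -/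
noncomputable def quotTrace {Γ Q : Type*} [Group Γ] [Group Q] (π : Γ →* Q) : Γ → ℂ :=
  fun g => if π g = 1 then 1 else 0

/-- The logarithm of the Fuglede-Kadison determinant of `X` with respect to the trace `τ` is `d`:
for all large real `K` the series `∑ τ((1 - X*X/K)^j)/j` converges to `N log K - 2 d`, where `N`
is the size of `X`. (If the spectrum of `X*X` with respect to `τ` is contained in `(0, K]`, the
series is minus the trace of the logarithm of `X*X/K`.) -/
def HasLogDet {Γ ι : Type*} [Group Γ] [Fintype ι] [DecidableEq ι] (τ : Γ → ℂ)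
    (X : Matrix ι ι (MonoidAlgebra ℂ Γ)) (d : ℝ) : Prop :=
  ∃ K₀ : ℝ, ∀ K : ℝ, K₀ < K → HasSum
    (fun j : ℕ => tauTrace τ ((1 - ((K : ℂ)⁻¹) • (adj X * X)) ^ (j + 1)) / (j + 1))
    (((Fintype.card ι : ℝ) * Real.log K - 2 * d : ℝ) : ℂ)

/-- `Q` is residually finite. -/
def ResFinite (Q : Type*) [Group Q] : Prop :=
  ∀ q : Q, q ≠ 1 → ∃ N : Subgroup Q, N.Normal ∧ N.FiniteIndex ∧ q ∉ N

end Pool.Agent.Lib.MP_8f66f0_al_Twist
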