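import Mathlib

/-! The trace series of a well conditioned matrix. -/

set_option autoImplicit false

namespace Pool.Agent.Lib.MP_8f66f0_al_Twist

open Matrix

variable {N : Type*} [Fintype N] [DecidableEq N]

theorem trace_pow_of_hermitian {P : Matrix N N ℂ} (hP : P.IsHermitian) (c : ℂ) (j : ℕ) :
    ((1 - c • P) ^ j).trace = ∑ i, (1 - c * (hP.eigenvalues i : ℂ)) ^ j := by
  have h := hP.spectral_theorem
  set D := diagonal (RCLike.ofReal ∘ hP.eigenvalues : N → ℂ) with hD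
  set φ := Unitary.conjStarAlgAut ℂ (Matrix N N ℂ) hP.eigenvectorUnitary with hφ
  have h1 : (1 - c • P) ^ j = φ ((1 - c • D) ^ j) := by
    rw [map_pow, map_sub, map_one, map_smul, ← h]
  have h2 : ∀ M : Matrix N N ℂ, (φ M).trace = M.trace := by
    intro M
    rw [hφ, Unitary.conjStarAlgAut_apply, Matrix.trace_mul_comm, ← mul_assoc]
    simp
  rw [h1, h2]
  have h3 : (1 - c • D) ^ j = diagonal fun i => (1 - c * (hP.eigenvalues i : ℂ)) ^ j := by
    have h4 : (1 - c • D) = diagonal fun i => (1 - c * (hP.eigenvalues i : ℂ)) := by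
      rw [hD, ← diagonal_one, ← diagonal_smul, diagonal_sub]
      rfl
    rw [h4, diagonal_pow]
    rfl
  rw [h3, trace_diagonal]

section norm

open scoped Matrix.Norms.L2Operator

theorem eig_bounds {Z W : Matrix N N ℂ} (hZW : W * Z = 1) {a b : ℝ} (hZ : ‖Z‖ ≤ a) (hW : ‖W‖ ≤ b)
    (hb : 1 ≤ b) (i : N) :
    1 / b ^ 2 ≤ (isHermitian_conjTranspose_mul_self Z).eigenvalues i ∧
      (isHermitian_conjTranspose_mul_self Z).eigenvalues i ≤ a ^ 2 := by
  set hP := isHermitian_conjTranspose_mul_self Z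
  set t := hP.eigenvalues i with ht
  set v : EuclideanSpace ℂ N := hP.eigenvectorBasis i with hv
  have hv1 : ‖v‖ = 1 := hP.eigenvectorBasis.orthonormal.1 i
  have hmul : (Zᴴ * Z) *ᵥ (v : N → ℂ) = (t : ℂ) • (v : N → ℂ) := by
    have := hP.mulVec_eigenvectorBasis i
    rw [← hv, ← ht] at this
    rw [this]
    ext x
    simp
  have hnormZ : ‖(WithLp.toLp 2 (Z *ᵥ (v : N → ℂ)) : EuclideanSpace ℂ N)‖ ^ 2 = t := by
    have h1 : (‖(WithLp.toLp 2 (Z *ᵥ (v : N → ℂ)) : EuclideanSpace ℂ N)‖ ^ 2 : ℂ) = (t : ℂ) := by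
      have h2 := inner_self_eq_norm_sq_to_K (𝕜 := ℂ)
        (WithLp.toLp 2 (Z *ᵥ (v : N → ℂ)) : EuclideanSpace ℂ N)
      have h3 : inner ℂ (WithLp.toLp 2 (Z *ᵥ (v : N → ℂ)) : EuclideanSpace ℂ N)
          (WithLp.toLp 2 (Z *ᵥ (v : N → ℂ)) : EuclideanSpace ℂ N) = (t : ℂ) := by
        rw [EuclideanSpace.inner_eq_star_dotProduct]
        simp only
        rw [dotProduct_comm, star_mulVec, ← dotProduct_mulVec, mulVec_mulVec, hmul,
          dotProduct_smul]
        have h4 : star (v : N → ℂ) ⬝ᵥ (v : N → ℂ) = 1 := by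
          have h5 := inner_self_eq_norm_sq_to_K (𝕜 := ℂ) v
          rw [EuclideanSpace.inner_eq_star_dotProduct, hv1, dotProduct_comm] at h5
          simpa using h5
        rw [h4]
        simp
      rw [← h3, h2]
      simp
    exact_mod_cast h1
  constructor
  · have h1 : ‖v‖ ≤ b * ‖(WithLp.toLp 2 (Z *ᵥ (v : N → ℂ)) : EuclideanSpace ℂ N)‖ := by
      have h2 := Matrix.l2_opNorm_mulVec W
        (WithLp.toLp 2 (Z *ᵥ (v : N → ℂ)) : EuclideanSpace ℂ N)
      have h3 : W *ᵥ (Z *ᵥ (v : N → ℂ)) = (v : N → ℂ) := by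
        rw [mulVec_mulVec, hZW, one_mulVec]
      simp only [h3] at h2
      calc ‖v‖ ≤ ‖W‖ * ‖(WithLp.toLp 2 (Z *ᵥ (v : N → ℂ)) : EuclideanSpace ℂ N)‖ := h2
        _ ≤ _ := by gcongr
    rw [hv1] at h1
    have h4 : 1 ≤ b ^ 2 * t := by
      rw [← hnormZ]
      nlinarith [norm_nonneg (WithLp.toLp 2 (Z *ᵥ (v : N → ℂ)) : EuclideanSpace ℂ N)]
    rw [div_le_iff₀ (by positivity)]
    linarith
  · have h2 := Matrix.l2_opNorm_mulVec Z v
    rw [hv1, mul_one] at h2
    rw [← hnormZ]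
    have h3 : ‖(WithLp.toLp 2 (Z *ᵥ (v : N → ℂ)) : EuclideanSpace ℂ N)‖ ≤ a := h2.trans hZ
    gcongr

end norm

/-- The estimates for the trace series. -/
theorem series_bounds {Z : Matrix N N ℂ} {a b K : ℝ}
    (hE : ∀ i, 1 / b ^ 2 ≤ (isHermitian_conjTranspose_mul_self Z).eigenvalues i ∧
      (isHermitian_conjTranspose_mul_self Z).eigenvalues i ≤ a ^ 2)
    (hb : 1 ≤ b) (hK : a ^ 2 < K) (hK1 : 1 ≤ K) :
    (∀ j, ‖((1 - ((K : ℂ)⁻¹) • (Zᴴ * Z)) ^ j).trace‖ ≤
      Fintype.card N * (1 - 1 / (K * b ^ 2)) ^ j) ∧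
    ∀ J : ℕ, ‖(∑ j ∈ Finset.range J, ((1 - ((K : ℂ)⁻¹) • (Zᴴ * Z)) ^ (j + 1)).trace / (j + 1)) -
      (((Fintype.card N : ℝ) * Real.log K - 2 * Real.log ‖Z.det‖ : ℝ) : ℂ)‖ ≤
      Fintype.card N * ((1 - 1 / (K * b ^ 2)) ^ (J + 1) * (K * b ^ 2)) := by
  set hP := isHermitian_conjTranspose_mul_self Z with hPdef
  set t := hP.eigenvalues with ht
  have hb2 : (0 : ℝ) < b ^ 2 := by positivity
  have hK0 : 0 < K := by linarith
  have htpos : ∀ i, 0 < t i := fun i => lt_of_lt_of_le (by positivity) (hE i).1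
  set x : N → ℝ := fun i => 1 - K⁻¹ * t i with hx
  set r : ℝ := 1 - 1 / (K * b ^ 2) with hr
  have hx0 : ∀ i, 0 ≤ x i := by
    intro i
    have h1 : K⁻¹ * t i ≤ 1 := by
      rw [inv_mul_le_iff₀ hK0]
      linarith [(hE i).2]
    simp only [hx]
    linarith
  have hxr : ∀ i, x i ≤ r := by
    intro i
    simp only [hx, hr]
    have h1 : 1 / (K * b ^ 2) = K⁻¹ * (1 / b ^ 2) := by field_simp
    rw [h1]
    have := mul_le_mul_of_nonneg_left (hE i).1 (inv_nonneg.mpr hK0.le)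
    linarith
  have hr1 : r < 1 := by
    simp only [hr]
    have : 0 < 1 / (K * b ^ 2) := by positivity
    linarith
  have htr : ∀ j : ℕ, ((1 - ((K : ℂ)⁻¹) • (Zᴴ * Z)) ^ j).trace = ((∑ i, x i ^ j : ℝ) : ℂ) := by
    intro j
    rw [trace_pow_of_hermitian hP]
    simp [hx, ht]
  refine ⟨fun j => ?_, fun J => ?_⟩
  · rw [htr, Complex.norm_real]
    refine (Finset.abs_sum_le_sum_abs _ _).trans ?_
    have : ∑ i : N, |x i ^ j| ≤ ∑ _i : N, r ^ j := by
      refine Finset.sum_le_sum fun i _ => ?_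
      rw [abs_of_nonneg (pow_nonneg (hx0 i) j)]
      exact pow_le_pow_left₀ (hx0 i) (hxr i) j
    simpa using this
  · have hdet : Real.log ‖Z.det‖ * 2 = ∑ i, Real.log (t i) := by
      have h1 : (Zᴴ * Z).det = ∏ i, (t i : ℂ) := hP.det_eq_prod_eigenvalues
      have h2 : ‖Z.det‖ ^ 2 = ∏ i, t i := by
        have h3 : ((‖Z.det‖ ^ 2 : ℝ) : ℂ) = ((∏ i, t i : ℝ) : ℂ) := by
          rw [det_mul, det_conjTranspose] at h1
          push_cast
          rw [← h1]
          exact (Complex.conj_mul' _).symm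
        exact_mod_cast h3
      rw [← Real.log_prod (fun i _ => (htpos i).ne'), ← h2, Real.log_pow]
      push_cast
      ring
    have hterm : ∀ i, |(∑ j ∈ Finset.range J, x i ^ (j + 1) / (j + 1)) -
        (Real.log K - Real.log (t i))| ≤ r ^ (J + 1) * (K * b ^ 2) := by
      intro i
      have h1 := Real.abs_log_sub_add_sum_range_le (x := x i)
        (by rw [abs_of_nonneg (hx0 i)]; exact lt_of_le_of_lt (hxr i) hr1) J
      have h2 : Real.log (1 - x i) = Real.log (t i) - Real.log K := by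
        have h3 : 1 - x i = t i / K := by
          simp only [hx]
          field_simp
          ring
        rw [h3, Real.log_div (htpos i).ne' hK0.ne']
      rw [h2, abs_of_nonneg (hx0 i)] at h1
      have h4 : (∑ j ∈ Finset.range J, x i ^ (j + 1) / (j + 1)) -
          (Real.log K - Real.log (t i)) =
          (∑ j ∈ Finset.range J, x i ^ (j + 1) / (j + 1)) + (Real.log (t i) - Real.log K) := by
        ring
      rw [h4]
      refine h1.trans ?_
      have h5 : 1 / (K * b ^ 2) ≤ 1 - x i := by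
        have := hxr i
        simp only [hr] at this
        linarith
      have h6 : x i ^ (J + 1) ≤ r ^ (J + 1) := pow_le_pow_left₀ (hx0 i) (hxr i) _
      have h7 : 0 < 1 - x i := lt_of_lt_of_le (by positivity) h5
      rw [div_le_iff₀ h7]
      have h8 : 1 ≤ K * b ^ 2 * (1 - x i) := by
        have := mul_le_mul_of_nonneg_left h5 (by positivity : 0 ≤ K * b ^ 2)
        rwa [mul_one_div_cancel (by positivity)] at this
      have h9 : 0 ≤ r ^ (J + 1) := (pow_nonneg (hx0 i) _).trans h6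
      calc x i ^ (J + 1) ≤ r ^ (J + 1) * 1 := by linarith
        _ ≤ r ^ (J + 1) * (K * b ^ 2 * (1 - x i)) := by gcongr
        _ = _ := by ring
    have hmain : (∑ j ∈ Finset.range J, ((1 - ((K : ℂ)⁻¹) • (Zᴴ * Z)) ^ (j + 1)).trace / (j + 1)) -
        (((Fintype.card N : ℝ) * Real.log K - 2 * Real.log ‖Z.det‖ : ℝ) : ℂ) =
        ((∑ i, ((∑ j ∈ Finset.range J, x i ^ (j + 1) / (j + 1)) -
          (Real.log K - Real.log (t i))) : ℝ) : ℂ) := by
      have h1 : (∑ j ∈ Finset.range J, ((1 - ((K : ℂ)⁻¹) • (Zᴴ * Z)) ^ (j + 1)).trace / (j + 1)) =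
          ((∑ i, ∑ j ∈ Finset.range J, x i ^ (j + 1) / (j + 1) : ℝ) : ℂ) := by
        rw [Finset.sum_comm]
        push_cast
        refine Finset.sum_congr rfl fun j _ => ?_
        rw [htr, ← Finset.sum_div]
        push_cast
        rfl
      rw [h1, Finset.sum_sub_distrib, Finset.sum_sub_distrib, ← hdet]
      push_cast
      simp
      ring
    rw [hmain, Complex.norm_real]
    refine (Finset.abs_sum_le_sum_abs _ _).trans ?_
    have := Finset.sum_le_sum fun i (_ : i ∈ Finset.univ) => hterm i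
    simpa using this

end Pool.Agent.Lib.MP_8f66f0_al_Twist
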