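import Mathlib
import Pool.Agent.Lib.MP_8f66f0_al_Twist.Defs

/-! Matrices over the complex group ring in a unitary representation. -/

set_option autoImplicit false

namespace Pool.Agent.Lib.MP_8f66f0_al_Twist

open Matrix

variable {Γ : Type*} [Group Γ] {ι : Type*} [Fintype ι] [DecidableEq ι] {m : ℕ}

/-- The extension of a unitary representation to the group algebra. -/
noncomputable def sHat (σ : Γ →* Matrix.unitaryGroup (Fin m) ℂ) :
    MonoidAlgebra ℂ Γ →ₐ[ℂ] Matrix (Fin m) (Fin m) ℂ :=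
  MonoidAlgebra.lift ℂ _ Γ ((Submonoid.subtype _).comp σ)

theorem sHat_single (σ : Γ →* Matrix.unitaryGroup (Fin m) ℂ) (g : Γ) (a : ℂ) :
    sHat σ (MonoidAlgebra.single g a) = a • (σ g : Matrix (Fin m) (Fin m) ℂ) := by
  simp [sHat, MonoidAlgebra.lift_single]

theorem sHat_apply (σ : Γ →* Matrix.unitaryGroup (Fin m) ℂ) (x : MonoidAlgebra ℂ Γ) :
    sHat σ x = x.coeff.sum fun g a => a • (σ g : Matrix (Fin m) (Fin m) ℂ) := by
  simp [sHat, MonoidAlgebra.lift_apply]

/-- The induced homomorphism on matrices. -/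
noncomputable def bigPhi (σ : Γ →* Matrix.unitaryGroup (Fin m) ℂ) :
    Matrix ι ι (MonoidAlgebra ℂ Γ) →ₐ[ℂ] Matrix (ι × Fin m) (ι × Fin m) ℂ :=
  (compAlgEquiv ι (Fin m) ℂ ℂ).toAlgHom.comp (AlgHom.mapMatrix (sHat σ))

theorem bigPhi_apply (σ : Γ →* Matrix.unitaryGroup (Fin m) ℂ) (X : Matrix ι ι (MonoidAlgebra ℂ Γ))
    (p q : ι × Fin m) : bigPhi σ X p q = sHat σ (X p.1 q.1) p.2 q.2 := by
  rfl

theorem bigPhi_adj (σ : Γ →* Matrix.unitaryGroup (Fin m) ℂ)
    (X : Matrix ι ι (MonoidAlgebra ℂ Γ)) : bigPhi σ (adj X) = (bigPhi σ X)ᴴ := by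
  ext p q
  rw [conjTranspose_apply, bigPhi_apply, bigPhi_apply]
  have h : sHat σ (adj X p.1 q.1) = (sHat σ (X q.1 p.1))ᴴ := by
    rw [sHat_apply σ (X q.1 p.1)]
    simp only [adj, of_apply, Finsupp.sum, map_sum, sHat_single, conjTranspose_sum,
      conjTranspose_smul]
    refine Finset.sum_congr rfl fun g _ => ?_
    congr 1
    rw [map_inv]
    rfl
  rw [h]
  rfl

theorem trace_bigPhi (σ : Γ →* Matrix.unitaryGroup (Fin m) ℂ)
    (X : Matrix ι ι (MonoidAlgebra ℂ Γ)) :
    (bigPhi σ X).trace = tauTrace (fun g => (σ g : Matrix (Fin m) (Fin m) ℂ).trace) X := by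
  unfold tauTrace
  simp only [Matrix.trace, diag_apply, Fintype.sum_prod_type, bigPhi_apply]
  refine Finset.sum_congr rfl fun x _ => ?_
  have h : ∑ y : Fin m, sHat σ (X x x) y y = (sHat σ (X x x)).trace := rfl
  rw [h, sHat_apply, Finsupp.sum, Matrix.trace_sum]
  simp only [Matrix.trace_smul, smul_eq_mul, Finsupp.sum]
  rfl

section norm

open scoped Matrix.Norms.L2Operator

/-- The sum of the absolute values of all coefficients of all entries. -/
noncomputable def oneNorm (X : Matrix ι ι (MonoidAlgebra ℂ Γ)) : ℝ :=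
  ∑ x, ∑ y, (X x y).coeff.sum fun _ a => ‖a‖

theorem norm_bigPhi_single_one (σ : Γ →* Matrix.unitaryGroup (Fin m) ℂ) (x : ι) :
    ‖bigPhi σ (Matrix.single x x (1 : MonoidAlgebra ℂ Γ))‖ ≤ 1 := by
  set P := bigPhi σ (Matrix.single x x (1 : MonoidAlgebra ℂ Γ)) with hP
  have h1 : P * P = P := by
    rw [hP, ← map_mul]
    congr 1
    simp
  have h2 : Pᴴ = P := by
    rw [hP, ← bigPhi_adj]
    congr 1
    ext i j : 2
    simp only [adj, of_apply, Matrix.single_apply]
    by_cases hij : x = j ∧ x = i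
    · rw [if_pos hij, if_pos ⟨hij.2, hij.1⟩]
      rw [MonoidAlgebra.one_def]
      simp
    · rw [if_neg hij, if_neg (fun h => hij ⟨h.2, h.1⟩)]
      simp
  have h3 : ‖P‖ * ‖P‖ = ‖P‖ := by
    have := CStarRing.norm_star_mul_self (x := P)
    rw [star_eq_conjTranspose, h2, h1] at this
    exact this.symm
  by_contra hc
  push Not at hc
  nlinarith

theorem norm_bigPhi_single (σ : Γ →* Matrix.unitaryGroup (Fin m) ℂ) (x y : ι) (g : Γ) (a : ℂ) :
    ‖bigPhi σ (Matrix.single x y (MonoidAlgebra.single g a))‖ ≤ ‖a‖ := by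
  set T := bigPhi σ (Matrix.single x y (MonoidAlgebra.single g (1 : ℂ))) with hT
  have h0 : bigPhi σ (Matrix.single x y (MonoidAlgebra.single g a)) = a • T := by
    rw [hT, ← map_smul]
    congr 1
    simp
  have h1 : Tᴴ * T = bigPhi σ (Matrix.single y y (1 : MonoidAlgebra ℂ Γ)) := by
    rw [hT, ← bigPhi_adj, ← map_mul]
    congr 1
    have h2 : adj (Matrix.single x y (MonoidAlgebra.single g (1 : ℂ))) =
        Matrix.single y x (MonoidAlgebra.single g⁻¹ (1 : ℂ)) := by
      ext i j : 2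
      simp only [adj, of_apply, Matrix.single_apply]
      by_cases hij : x = j ∧ y = i
      · rw [if_pos hij, if_pos ⟨hij.2, hij.1⟩]
        simp
      · rw [if_neg hij, if_neg (fun h => hij ⟨h.2, h.1⟩)]
        simp
    rw [h2]
    simp [MonoidAlgebra.single_mul_single, MonoidAlgebra.one_def]
  have h3 : ‖T‖ * ‖T‖ ≤ 1 := by
    have := CStarRing.norm_star_mul_self (x := T)
    rw [star_eq_conjTranspose, h1] at this
    rw [← this]
    exact norm_bigPhi_single_one σ y
  have h4 : ‖T‖ ≤ 1 := by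
    by_contra hc
    push Not at hc
    nlinarith [norm_nonneg T]
  rw [h0, norm_smul]
  calc ‖a‖ * ‖T‖ ≤ ‖a‖ * 1 := by gcongr
    _ = ‖a‖ := mul_one _

theorem norm_bigPhi_le (σ : Γ →* Matrix.unitaryGroup (Fin m) ℂ)
    (X : Matrix ι ι (MonoidAlgebra ℂ Γ)) : ‖bigPhi σ X‖ ≤ oneNorm X := by
  have h : X = ∑ x, ∑ y, ∑ g ∈ (X x y).coeff.support,
      Matrix.single x y (MonoidAlgebra.single g ((X x y).coeff g)) := by
    conv_lhs => rw [Matrix.matrix_eq_sum_single X]
    refine Finset.sum_congr rfl fun x _ => Finset.sum_congr rfl fun y _ => ?_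
    have h1 : X x y = ∑ g ∈ (X x y).coeff.support,
        MonoidAlgebra.single g ((X x y).coeff g) := by
      have := MonoidAlgebra.sum_coeff_single (X x y)
      rw [Finsupp.sum] at this
      exact this.symm
    conv_lhs => rw [h1]
    exact map_sum (Matrix.singleAddMonoidHom x y) _ _
  conv_lhs => rw [h]
  simp only [map_sum]
  unfold oneNorm
  refine (norm_sum_le _ _).trans (Finset.sum_le_sum fun x _ => ?_)
  refine (norm_sum_le _ _).trans (Finset.sum_le_sum fun y _ => ?_)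
  refine (norm_sum_le _ _).trans (Finset.sum_le_sum fun g _ => ?_)
  exact norm_bigPhi_single σ x y g _

end norm

end Pool.Agent.Lib.MP_8f66f0_al_Twist
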