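import Mathlib
import Pool.Agent.Lib.MP_8f66f0_al_Dennis.Dets
import Pool.Agent.Lib.MP_8f66f0_al_Twist.Hom

/-! The tensor product of a representation with a unitary representation. -/

set_option autoImplicit false

namespace Pool.Agent.Lib.MP_8f66f0_al_Twist

open Matrix Pool.Agent.Lib.MP_8f66f0_al_Dennis
open scoped Kronecker

variable {Γ : Type*} [Group Γ] {n k m : ℕ}

/-- The tensor product as a homomorphism to the multiplicative monoid of matrices. -/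
noncomputable def tensHom (ρ : Γ →* Matrix.GeneralLinearGroup (Fin k) ℂ)
    (σ : Γ →* Matrix.unitaryGroup (Fin m) ℂ) : Γ →* Matrix (Fin (k * m)) (Fin (k * m)) ℂ where
  toFun g := Matrix.reindexAlgEquiv ℂ ℂ finProdFinEquiv
    ((ρ g : Matrix (Fin k) (Fin k) ℂ) ⊗ₖ (σ g : Matrix (Fin m) (Fin m) ℂ))
  map_one' := by
    rw [map_one, map_one]
    simp
  map_mul' g h := by
    have h1 : (ρ (g * h) : Matrix (Fin k) (Fin k) ℂ) =
        (ρ g : Matrix (Fin k) (Fin k) ℂ) * (ρ h : Matrix (Fin k) (Fin k) ℂ) := by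
      rw [map_mul]; rfl
    have h2 : (σ (g * h) : Matrix (Fin m) (Fin m) ℂ) =
        (σ g : Matrix (Fin m) (Fin m) ℂ) * (σ h : Matrix (Fin m) (Fin m) ℂ) := by
      rw [map_mul]; rfl
    rw [h1, h2, mul_kronecker_mul, map_mul]

/-- The tensor product representation. -/
noncomputable def tens (ρ : Γ →* Matrix.GeneralLinearGroup (Fin k) ℂ)
    (σ : Γ →* Matrix.unitaryGroup (Fin m) ℂ) : Γ →* Matrix.GeneralLinearGroup (Fin (k * m)) ℂ :=
  (tensHom ρ σ).toHomUnits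

theorem coe_tens (ρ : Γ →* Matrix.GeneralLinearGroup (Fin k) ℂ)
    (σ : Γ →* Matrix.unitaryGroup (Fin m) ℂ) (g : Γ) :
    (tens ρ σ g : Matrix (Fin (k * m)) (Fin (k * m)) ℂ) =
      Matrix.reindexAlgEquiv ℂ ℂ finProdFinEquiv
        ((ρ g : Matrix (Fin k) (Fin k) ℂ) ⊗ₖ (σ g : Matrix (Fin m) (Fin m) ℂ)) := rfl

theorem norm_det_tens (ρ : Γ →* Matrix.GeneralLinearGroup (Fin k) ℂ)
    (σ : Γ →* Matrix.unitaryGroup (Fin m) ℂ) (g : Γ) :
    ‖(tens ρ σ g : Matrix (Fin (k * m)) (Fin (k * m)) ℂ).det‖ =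
      ‖(ρ g : Matrix (Fin k) (Fin k) ℂ).det‖ ^ m := by
  rw [coe_tens, Matrix.det_reindexAlgEquiv, det_kronecker, norm_mul, norm_pow, norm_pow]
  have h : ‖(σ g : Matrix (Fin m) (Fin m) ℂ).det‖ = 1 :=
    CStarRing.norm_of_mem_unitary (Matrix.det_of_mem_unitary (σ g).2)
  rw [h]
  simp

/-- The reordering of the index sets. -/
def idxEquiv (n k m : ℕ) : (Fin n × Fin k) × Fin m ≃ Fin n × Fin (k * m) :=
  (Equiv.prodAssoc _ _ _).trans (Equiv.prodCongr (Equiv.refl _) finProdFinEquiv)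

theorem repMatrix_tens (ρ : Γ →* Matrix.GeneralLinearGroup (Fin k) ℂ)
    (σ : Γ →* Matrix.unitaryGroup (Fin m) ℂ) (A : Matrix (Fin n) (Fin n) (MonoidAlgebra ℤ Γ)) :
    repMatrix (tens ρ σ) A =
      Matrix.reindexAlgEquiv ℂ ℂ (idxEquiv n k m) (bigPhi σ (twist ρ A)) := by
  ext x y
  obtain ⟨⟨⟨i, a⟩, c⟩, rfl⟩ := (idxEquiv n k m).surjective x
  obtain ⟨⟨⟨j, b⟩, d⟩, rfl⟩ := (idxEquiv n k m).surjective y
  rw [Matrix.coe_reindexAlgEquiv, Matrix.reindex_apply, Matrix.submatrix_apply,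
    Equiv.symm_apply_apply, Equiv.symm_apply_apply, bigPhi_apply]
  simp only [twist, repMatrix, of_apply, idxEquiv, Equiv.trans_apply, Equiv.prodAssoc_apply,
    Equiv.prodCongr_apply, Prod.map, Equiv.refl_apply, Finsupp.sum, map_sum, sHat_single,
    Matrix.sum_apply, Matrix.smul_apply, smul_eq_mul, coe_tens, Matrix.coe_reindexAlgEquiv,
    Matrix.reindex_apply, Matrix.submatrix_apply, Equiv.symm_apply_apply, kronecker_apply]
  refine Finset.sum_congr rfl fun g _ => ?_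
  ring

theorem norm_det_bigPhi {A : Matrix (Fin n) (Fin n) (MonoidAlgebra ℤ Γ)} {γ : Γ} {ε : ℤ}
    (hε : ε = 1 ∨ ε = -1)
    (hdet : ∀ (l : ℕ) (ρ : Γ →* Matrix.GeneralLinearGroup (Fin l) ℂ),
      (repMatrix ρ A).det = (ε : ℂ) ^ l * (ρ γ : Matrix (Fin l) (Fin l) ℂ).det)
    (ρ : Γ →* Matrix.GeneralLinearGroup (Fin k) ℂ) (σ : Γ →* Matrix.unitaryGroup (Fin m) ℂ) :
    ‖(bigPhi σ (twist ρ A)).det‖ = ‖(ρ γ : Matrix (Fin k) (Fin k) ℂ).det‖ ^ m := by
  have h1 := hdet _ (tens ρ σ)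
  rw [repMatrix_tens, Matrix.det_reindexAlgEquiv] at h1
  rw [h1, norm_mul, norm_pow, norm_det_tens]
  have h2 : ‖(ε : ℂ)‖ = 1 := by
    rcases hε with h | h <;> rw [h] <;> simp
  rw [h2, one_pow, one_mul]

theorem bigPhi_twist_mul {A B : Matrix (Fin n) (Fin n) (MonoidAlgebra ℤ Γ)} (hBA : B * A = 1)
    (ρ : Γ →* Matrix.GeneralLinearGroup (Fin k) ℂ) (σ : Γ →* Matrix.unitaryGroup (Fin m) ℂ) :
    bigPhi σ (twist ρ B) * bigPhi σ (twist ρ A) = 1 := by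
  have h : repMatrix (tens ρ σ) B * repMatrix (tens ρ σ) A = 1 := by
    rw [← repMatrix_mul, hBA, repMatrix_one]
  rw [repMatrix_tens, repMatrix_tens, ← map_mul] at h
  have := (Matrix.reindexAlgEquiv ℂ ℂ (idxEquiv n k m)).injective (a₁ := bigPhi σ (twist ρ B) *
    bigPhi σ (twist ρ A)) (a₂ := 1) (by rw [h, map_one])
  exact this

end Pool.Agent.Lib.MP_8f66f0_al_Twist
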