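import Mathlib
import Pool.Agent.Lib.MP_8f66f0_al_Twist.Tens
import Pool.Agent.Lib.MP_8f66f0_al_Twist.Eig

/-! The twisted Fuglede-Kadison determinants with respect to limits of finite-dimensional traces. -/

set_option autoImplicit false

namespace Pool.Agent.Lib.MP_8f66f0_al_Twist

open Matrix Pool.Agent.Lib.MP_8f66f0_al_Dennis

theorem approx_trace {Γ ι : Type*} [Group Γ] [Fintype ι] [DecidableEq ι] {τ : Γ → ℂ}
    (hτ : IsFDTrace τ) (Y : ℕ → Matrix ι ι (MonoidAlgebra ℂ Γ)) (J : ℕ) {δ : ℝ} (hδ : 0 < δ) :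
    ∃ (m : ℕ) (σ : Γ →* Matrix.unitaryGroup (Fin m) ℂ), 0 < m ∧
      ∀ j < J, ‖tauTrace τ (Y j) - (bigPhi σ (Y j)).trace / m‖ < δ := by
  classical
  set F : Finset Γ := (Finset.range J).biUnion fun j => Finset.univ.biUnion fun x =>
    (Y j x x).coeff.support with hF
  set c : ℕ → ℝ := fun j => ∑ x, ∑ g ∈ (Y j x x).coeff.support, ‖(Y j x x).coeff g‖ with hc
  have hc0 : ∀ j, 0 ≤ c j := fun j =>
    Finset.sum_nonneg fun x _ => Finset.sum_nonneg fun g _ => norm_nonneg _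
  set C : ℝ := ∑ j ∈ Finset.range J, c j with hC
  have hC0 : 0 ≤ C := Finset.sum_nonneg fun j _ => hc0 j
  obtain ⟨m, σ, hm, h⟩ := hτ F (δ / (C + 1)) (by positivity)
  refine ⟨m, σ, hm, fun j hj => ?_⟩
  have h1 : tauTrace τ (Y j) - (bigPhi σ (Y j)).trace / m =
      ∑ x, ∑ g ∈ (Y j x x).coeff.support, (Y j x x).coeff g *
        (τ g - (σ g : Matrix (Fin m) (Fin m) ℂ).trace / m) := by
    rw [trace_bigPhi, tauTrace, tauTrace, Finset.sum_div, ← Finset.sum_sub_distrib]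
    refine Finset.sum_congr rfl fun x _ => ?_
    rw [Finsupp.sum, Finsupp.sum, Finset.sum_div, ← Finset.sum_sub_distrib]
    refine Finset.sum_congr rfl fun g _ => ?_
    ring
  have h2 : ‖tauTrace τ (Y j) - (bigPhi σ (Y j)).trace / m‖ ≤ c j * (δ / (C + 1)) := by
    rw [h1, hc, Finset.sum_mul]
    refine (norm_sum_le _ _).trans (Finset.sum_le_sum fun x _ => ?_)
    rw [Finset.sum_mul]
    refine (norm_sum_le _ _).trans (Finset.sum_le_sum fun g hg => ?_)
    rw [norm_mul]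
    refine mul_le_mul_of_nonneg_left (h g ?_).le (norm_nonneg _)
    rw [hF, Finset.mem_biUnion]
    exact ⟨j, Finset.mem_range.mpr hj, Finset.mem_biUnion.mpr ⟨x, Finset.mem_univ _, hg⟩⟩
  have h3 : c j ≤ C := Finset.single_le_sum (fun i _ => hc0 i) (Finset.mem_range.mpr hj)
  refine lt_of_le_of_lt h2 ?_
  calc c j * (δ / (C + 1)) ≤ C * (δ / (C + 1)) := by gcongr
    _ < (C + 1) * (δ / (C + 1)) := by
        have : 0 < δ / (C + 1) := by positivity
        nlinarith
    _ = δ := by field_simp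

theorem hasLogDet_twist {Γ : Type*} [Group Γ] {n k : ℕ}
    {A B : Matrix (Fin n) (Fin n) (MonoidAlgebra ℤ Γ)} (hBA : B * A = 1) {γ : Γ} {ε : ℤ}
    (hε : ε = 1 ∨ ε = -1)
    (hdet : ∀ (l : ℕ) (ρ : Γ →* Matrix.GeneralLinearGroup (Fin l) ℂ),
      (repMatrix ρ A).det = (ε : ℂ) ^ l * (ρ γ : Matrix (Fin l) (Fin l) ℂ).det)
    (ρ : Γ →* Matrix.GeneralLinearGroup (Fin k) ℂ) {τ : Γ → ℂ} (hτ : IsFDTrace τ) :
    HasLogDet τ (twist ρ A) (Real.log ‖(ρ γ : Matrix (Fin k) (Fin k) ℂ).det‖) := by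
  classical
  set X := twist ρ A with hX
  set a : ℝ := oneNorm X with ha
  set b : ℝ := oneNorm (twist ρ B) + 1 with hb
  have hnn : ∀ M : Matrix (Fin n × Fin k) (Fin n × Fin k) (MonoidAlgebra ℂ Γ), 0 ≤ oneNorm M :=
    fun M => Finset.sum_nonneg fun x _ => Finset.sum_nonneg fun y _ =>
      Finset.sum_nonneg fun g _ => norm_nonneg _
  have hb1 : 1 ≤ b := by
    have := hnn (twist ρ B)
    rw [hb]; linarith
  refine ⟨a ^ 2 + 1, fun K hK => ?_⟩
  have hKa : a ^ 2 < K := by linarith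
  have hK1 : 1 ≤ K := by nlinarith [sq_nonneg a]
  set r : ℝ := 1 - 1 / (K * b ^ 2) with hr
  have hKb : 1 ≤ K * b ^ 2 := by nlinarith
  have hr0 : 0 ≤ r := by
    rw [hr]
    have : 1 / (K * b ^ 2) ≤ 1 := by
      rw [div_le_one (by linarith)]; exact hKb
    linarith
  have hr1 : r < 1 := by
    rw [hr]
    have : 0 < 1 / (K * b ^ 2) := by positivity
    linarith
  set Y : Matrix (Fin n × Fin k) (Fin n × Fin k) (MonoidAlgebra ℂ Γ) :=
    1 - ((K : ℂ)⁻¹) • (adj X * X) with hY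
  set c : ℝ := (Fintype.card (Fin n × Fin k) : ℝ) with hc
  have hc0 : 0 ≤ c := Nat.cast_nonneg _
  set L : ℂ := ((c * Real.log K - 2 * Real.log ‖(ρ γ : Matrix (Fin k) (Fin k) ℂ).det‖ : ℝ) : ℂ)
    with hL
  -- the two bounds in every unitary representation
  have key : ∀ (m : ℕ) (σ : Γ →* Matrix.unitaryGroup (Fin m) ℂ), 0 < m →
      (∀ j : ℕ, ‖(bigPhi σ (Y ^ j)).trace / m‖ ≤ c * r ^ j) ∧
      ∀ J : ℕ, ‖(∑ j ∈ Finset.range J, ((bigPhi σ (Y ^ (j + 1))).trace / m) / (j + 1)) - L‖ ≤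
        c * (r ^ (J + 1) * (K * b ^ 2)) := by
    intro m σ hm
    have hm' : (m : ℝ) ≠ 0 := by positivity
    have hmc : (m : ℂ) ≠ 0 := by exact_mod_cast hm.ne'
    have hpow : ∀ j : ℕ, bigPhi σ (Y ^ j) =
        (1 - ((K : ℂ)⁻¹) • ((bigPhi σ X)ᴴ * bigPhi σ X)) ^ j := by
      intro j
      rw [map_pow, hY, map_sub, map_one, map_smul, map_mul, bigPhi_adj]
    have hZW := bigPhi_twist_mul (k := k) hBA ρ σ
    have hE := fun i => eig_bounds hZW (norm_bigPhi_le σ X)
      ((norm_bigPhi_le σ (twist ρ B)).trans (by rw [hb]; linarith)) hb1 i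
    obtain ⟨h1, h2⟩ := series_bounds hE hb1 hKa hK1
    have hcard : (Fintype.card ((Fin n × Fin k) × Fin m) : ℝ) = c * m := by
      rw [Fintype.card_prod, Fintype.card_fin]
      push_cast
      rw [hc]
    rw [hcard] at h1 h2
    refine ⟨fun j => ?_, fun J => ?_⟩
    · rw [hpow, norm_div, Complex.norm_natCast, div_le_iff₀ (by positivity)]
      calc _ ≤ c * m * r ^ j := h1 j
        _ = _ := by ring
    · have h3 := h2 J
      have h4 : (∑ j ∈ Finset.range J, ((bigPhi σ (Y ^ (j + 1))).trace / m) / (j + 1)) - L =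
          ((∑ j ∈ Finset.range J, ((1 - ((K : ℂ)⁻¹) • ((bigPhi σ X)ᴴ * bigPhi σ X)) ^
            (j + 1)).trace / (j + 1)) -
            ((c * m * Real.log K - 2 * Real.log ‖(bigPhi σ X).det‖ : ℝ) : ℂ)) / m := by
        rw [sub_div, Finset.sum_div]
        congr 1
        · refine Finset.sum_congr rfl fun j _ => ?_
          rw [hpow]
          ring
        · rw [hL, hX, norm_det_bigPhi hε hdet, Real.log_pow]
          push_cast
          field_simp
      rw [h4, norm_div, Complex.norm_natCast, div_le_iff₀ (by positivity)]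
      calc _ ≤ c * m * (r ^ (J + 1) * (K * b ^ 2)) := h3
        _ = _ := by ring
  -- transfer to the limit trace
  have hA : ∀ j : ℕ, ‖tauTrace τ (Y ^ j)‖ ≤ c * r ^ j := by
    intro j
    refine le_of_forall_pos_le_add fun δ hδ => ?_
    obtain ⟨m, σ, hm, h⟩ := approx_trace hτ (fun i => Y ^ i) (j + 1) hδ
    have h1 := (key m σ hm).1 j
    have h2 := h j (Nat.lt_succ_self j)
    calc ‖tauTrace τ (Y ^ j)‖ = ‖(bigPhi σ (Y ^ j)).trace / m +
          (tauTrace τ (Y ^ j) - (bigPhi σ (Y ^ j)).trace / m)‖ := by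
            congr 1; ring
      _ ≤ _ := norm_add_le _ _
      _ ≤ c * r ^ j + δ := add_le_add h1 h2.le
  have hB : ∀ J : ℕ, ‖(∑ j ∈ Finset.range J, tauTrace τ (Y ^ (j + 1)) / (j + 1)) - L‖ ≤
      c * (r ^ (J + 1) * (K * b ^ 2)) := by
    intro J
    refine le_of_forall_pos_le_add fun δ hδ => ?_
    have hδ' : 0 < δ / (J + 1) := by positivity
    obtain ⟨m, σ, hm, h⟩ := approx_trace hτ (fun i => Y ^ (i + 1)) J hδ'
    have h1 := (key m σ hm).2 J
    have h2 : ‖(∑ j ∈ Finset.range J, (tauTrace τ (Y ^ (j + 1)) -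
        (bigPhi σ (Y ^ (j + 1))).trace / m) / (j + 1))‖ ≤ δ := by
      calc _ ≤ ∑ j ∈ Finset.range J, ‖(tauTrace τ (Y ^ (j + 1)) -
            (bigPhi σ (Y ^ (j + 1))).trace / m) / (j + 1)‖ := norm_sum_le _ _
        _ ≤ ∑ _j ∈ Finset.range J, δ / (J + 1) := by
            refine Finset.sum_le_sum fun j hj => ?_
            have h3 := (h j (Finset.mem_range.mp hj)).le
            rw [norm_div]
            have h4 : (1 : ℝ) ≤ ‖((j : ℂ) + 1)‖ := by
              have : ((j : ℂ) + 1) = ((j + 1 : ℕ) : ℂ) := by push_cast; ring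
              rw [this, Complex.norm_natCast]
              exact_mod_cast Nat.succ_le_succ (Nat.zero_le j)
            calc _ ≤ ‖tauTrace τ (Y ^ (j + 1)) - (bigPhi σ (Y ^ (j + 1))).trace / m‖ / 1 := by
                  gcongr
              _ ≤ _ := by rw [div_one]; exact h3
        _ = J * (δ / (J + 1)) := by simp
        _ ≤ (J + 1) * (δ / (J + 1)) := by gcongr; linarith
        _ = δ := by field_simp
    have h5 : (∑ j ∈ Finset.range J, tauTrace τ (Y ^ (j + 1)) / (j + 1)) - L =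
        ((∑ j ∈ Finset.range J, ((bigPhi σ (Y ^ (j + 1))).trace / m) / (j + 1)) - L) +
        (∑ j ∈ Finset.range J, (tauTrace τ (Y ^ (j + 1)) -
        (bigPhi σ (Y ^ (j + 1))).trace / m) / (j + 1)) := by
      simp only [sub_div, Finset.sum_sub_distrib]
      ring
    rw [h5]
    exact (norm_add_le _ _).trans (add_le_add h1 h2)
  rw [hasSum_iff_tendsto_nat_of_summable_norm]
  · rw [tendsto_iff_norm_sub_tendsto_zero]
    refine squeeze_zero (fun J => norm_nonneg _) hB ?_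
    have h1 : Filter.Tendsto (fun J : ℕ => r ^ (J + 1)) Filter.atTop (nhds 0) :=
      (tendsto_pow_atTop_nhds_zero_of_lt_one hr0 hr1).comp (Filter.tendsto_add_atTop_nat 1)
    have h2 := (h1.mul_const (K * b ^ 2)).const_mul c
    simpa using h2
  · refine Summable.of_nonneg_of_le (fun j => norm_nonneg _) (fun j => ?_)
      (((summable_geometric_of_lt_one hr0 hr1).mul_left c))
    rw [norm_div]
    have h4 : (1 : ℝ) ≤ ‖((j : ℂ) + 1)‖ := by
      have : ((j : ℂ) + 1) = ((j + 1 : ℕ) : ℂ) := by push_cast; ring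
      rw [this, Complex.norm_natCast]
      exact_mod_cast Nat.succ_le_succ (Nat.zero_le j)
    calc _ ≤ ‖tauTrace τ (Y ^ (j + 1))‖ / 1 := by gcongr
      _ ≤ c * r ^ (j + 1) := by rw [div_one]; exact hA _
      _ ≤ c * r ^ j := by
          gcongr c * ?_
          exact pow_le_pow_of_le_one hr0 hr1.le (Nat.le_succ j)

end Pool.Agent.Lib.MP_8f66f0_al_Twist
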