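import Mathlib
import Pool.Agent.Lib.MP_8f66f0_al_Twist.Limit

/-! Passing from a subgroup to the group. -/

set_option autoImplicit false

namespace Pool.Agent.Lib.MP_8f66f0_al_Twist

open Matrix Pool.Agent.Lib.MP_8f66f0_al_Dennis

variable {Γ : Type*} [Group Γ] {H : Subgroup Γ} {ι : Type*} [Fintype ι] [DecidableEq ι]

/-- The inclusion of group rings on matrices. -/
noncomputable def incl (H : Subgroup Γ) :
    Matrix ι ι (MonoidAlgebra ℂ H) →ₐ[ℂ] Matrix ι ι (MonoidAlgebra ℂ Γ) :=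
  AlgHom.mapMatrix (MonoidAlgebra.mapDomainAlgHom ℂ ℂ H.subtype)

theorem incl_apply (X : Matrix ι ι (MonoidAlgebra ℂ H)) (x y : ι) :
    incl H X x y = MonoidAlgebra.mapDomain H.subtype (X x y) := rfl

theorem adj_incl (X : Matrix ι ι (MonoidAlgebra ℂ H)) : adj (incl H X) = incl H (adj X) := by
  ext x y : 2
  rw [incl_apply]
  simp only [adj, of_apply, incl_apply, MonoidAlgebra.mapDomain_sum,
    MonoidAlgebra.mapDomain_single]
  simp only [MonoidAlgebra.mapDomain]
  rw [Finsupp.sum_mapDomain_index]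
  · rfl
  · intro h
    simp
  · intro h a b
    rw [star_add, MonoidAlgebra.single_add]

theorem tauTrace_incl (τ : Γ → ℂ) (X : Matrix ι ι (MonoidAlgebra ℂ H)) :
    tauTrace τ (incl H X) = tauTrace (fun h : H => τ h) X := by
  unfold tauTrace
  refine Finset.sum_congr rfl fun x _ => ?_
  rw [incl_apply]
  simp only [MonoidAlgebra.mapDomain]
  rw [Finsupp.sum_mapDomain_index]
  · rfl
  · intro h
    simp
  · intro h a b
    ring

theorem twist_incl {n k : ℕ} (ρ : Γ →* Matrix.GeneralLinearGroup (Fin k) ℂ)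
    {A : Matrix (Fin n) (Fin n) (MonoidAlgebra ℤ Γ)}
    {A' : Matrix (Fin n) (Fin n) (MonoidAlgebra ℤ H)}
    (hA : ∀ i j, MonoidAlgebra.mapDomainRingHom ℤ H.subtype (A' i j) = A i j) :
    twist ρ A = incl H (twist (ρ.comp H.subtype) A') := by
  ext x y : 2
  rw [incl_apply]
  simp only [twist, of_apply, MonoidAlgebra.mapDomain_sum, MonoidAlgebra.mapDomain_single]
  rw [← hA x.1 y.1]
  have h1 : (MonoidAlgebra.mapDomainRingHom ℤ H.subtype (A' x.1 y.1)).coeff =
      Finsupp.mapDomain H.subtype (A' x.1 y.1).coeff := rfl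
  rw [h1, Finsupp.sum_mapDomain_index]
  · rfl
  · intro h
    simp
  · intro h a b
    push_cast
    rw [add_mul, MonoidAlgebra.single_add]

theorem hasLogDet_of_subgroup {n k : ℕ} (ρ : Γ →* Matrix.GeneralLinearGroup (Fin k) ℂ)
    {A : Matrix (Fin n) (Fin n) (MonoidAlgebra ℤ Γ)}
    {A' : Matrix (Fin n) (Fin n) (MonoidAlgebra ℤ H)}
    (hA : ∀ i j, MonoidAlgebra.mapDomainRingHom ℤ H.subtype (A' i j) = A i j) {τ : Γ → ℂ} {d : ℝ}
    (h : HasLogDet (fun h : H => τ h) (twist (ρ.comp H.subtype) A') d) :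
    HasLogDet τ (twist ρ A) d := by
  obtain ⟨K₀, hK₀⟩ := h
  refine ⟨K₀, fun K hK => ?_⟩
  have h1 := hK₀ K hK
  have h2 : ∀ j : ℕ, tauTrace τ ((1 - ((K : ℂ)⁻¹) • (adj (twist ρ A) * twist ρ A)) ^ (j + 1)) =
      tauTrace (fun h : H => τ h) ((1 - ((K : ℂ)⁻¹) • (adj (twist (ρ.comp H.subtype) A') *
        twist (ρ.comp H.subtype) A')) ^ (j + 1)) := by
    intro j
    rw [twist_incl ρ hA, adj_incl, ← tauTrace_incl, map_pow, map_sub, map_one, map_smul, map_mul]
  simp only [h2]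
  exact h1

end Pool.Agent.Lib.MP_8f66f0_al_Twist
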