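import Mathlib
import Pool.Agent.Lib.MP_8f66f0_al_Twist.Defs

/-! The regular trace of a residually finite quotient is a limit of finite-dimensional traces. -/

set_option autoImplicit false

namespace Pool.Agent.Lib.MP_8f66f0_al_Twist

open Matrix

variable {Γ : Type*} [Group Γ] {m : ℕ}

/-- The permutation matrices of an action on `Fin m`. -/
def permHom (φ : Γ →* Equiv.Perm (Fin m)) : Γ →* Matrix (Fin m) (Fin m) ℂ where
  toFun g := Matrix.of fun x y => if x = φ g y then 1 else 0
  map_one' := by
    ext x y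
    simp [Matrix.one_apply]
  map_mul' g h := by
    ext x y
    simp [Matrix.mul_apply]

theorem permHom_apply (φ : Γ →* Equiv.Perm (Fin m)) (g : Γ) (x y : Fin m) :
    permHom φ g x y = if x = φ g y then 1 else 0 := rfl

theorem permHom_star (φ : Γ →* Equiv.Perm (Fin m)) (g : Γ) :
    star (permHom φ g) = permHom φ g⁻¹ := by
  ext x y
  rw [Matrix.star_apply, permHom_apply, permHom_apply, map_inv]
  by_cases h : y = φ g x
  · rw [if_pos h, if_pos (by rw [h]; simp), star_one]
  · rw [if_neg h, if_neg (fun h' => h (by rw [h']; simp)), star_zero]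

/-- The permutation representation as a unitary representation. -/
def permUnitary (φ : Γ →* Equiv.Perm (Fin m)) : Γ →* Matrix.unitaryGroup (Fin m) ℂ where
  toFun g := ⟨permHom φ g, by
    rw [Matrix.mem_unitaryGroup_iff, permHom_star, ← map_mul, mul_inv_cancel, map_one]⟩
  map_one' := Subtype.ext (map_one _)
  map_mul' g h := Subtype.ext (map_mul _ g h)

theorem trace_permUnitary (φ : Γ →* Equiv.Perm (Fin m)) (g : Γ) :
    (permUnitary φ g : Matrix (Fin m) (Fin m) ℂ).trace = ∑ x, if x = φ g x then 1 else 0 := rfl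

theorem exists_avoid {Q : Type*} [Group Q] (hQ : ResFinite Q) (S : Finset Q) :
    ∃ N : Subgroup Q, N.Normal ∧ N.FiniteIndex ∧ ∀ q ∈ S, q ≠ 1 → q ∉ N := by
  classical
  induction S using Finset.induction_on with
  | empty => exact ⟨⊤, inferInstance, inferInstance, by simp⟩
  | insert q S _ ih =>
    obtain ⟨N, hN, hf, h⟩ := ih
    by_cases hq : q = 1
    · refine ⟨N, hN, hf, fun x hx hx1 => ?_⟩
      rcases Finset.mem_insert.mp hx with h1 | h1
      · exact absurd (h1.trans hq) hx1
      · exact h x h1 hx1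
    · obtain ⟨N', hN', hf', h'⟩ := hQ q hq
      refine ⟨N ⊓ N', inferInstance, inferInstance, fun x hx hx1 hmem => ?_⟩
      rcases Finset.mem_insert.mp hx with h1 | h1
      · rw [h1] at hmem
        exact h' hmem.2
      · exact h x h1 hx1 hmem.1

open Classical in
/-- The regular trace of a residually finite quotient. -/
theorem isFDTrace_quot {Q : Type*} [Group Q] (hQ : ResFinite Q) (π : Γ →* Q) :
    IsFDTrace fun g => if π g = 1 then (1 : ℂ) else 0 := by
  intro F δ hδ
  obtain ⟨N, hN, hf, h⟩ := exists_avoid hQ (F.image π)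
  haveI := hN
  haveI := hf
  haveI : Finite (Q ⧸ N) := Subgroup.finite_quotient_of_finiteIndex
  obtain ⟨m, ⟨e⟩⟩ := Finite.exists_equiv_fin (Q ⧸ N)
  have hm : 0 < m := by
    rcases Nat.eq_zero_or_pos m with h0 | h0
    · subst h0
      exact (e 1).elim0
    · exact h0
  set φ : Γ →* Equiv.Perm (Fin m) := ((Equiv.permCongrHom e).toMonoidHom.comp
    (MulAction.toPermHom (Q ⧸ N) (Q ⧸ N))).comp ((QuotientGroup.mk' N).comp π) with hφ
  have hφa : ∀ (g : Γ) (x : Fin m), φ g x = e ((π g : Q ⧸ N) * e.symm x) := fun g x => rfl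
  refine ⟨m, permUnitary φ, hm, fun g hg => ?_⟩
  rw [trace_permUnitary]
  by_cases h1 : π g = 1
  · have h2 : ∀ x : Fin m, x = φ g x := by
      intro x
      rw [hφa, h1]
      simp
    have h3 : (∑ x : Fin m, if x = φ g x then (1 : ℂ) else 0) = m := by
      rw [Finset.sum_congr rfl fun x _ => if_pos (h2 x)]
      simp
    have hmc : (m : ℂ) ≠ 0 := by exact_mod_cast hm.ne'
    rw [h3, div_self hmc]
    simp [h1, hδ]
  · have h2 : ∀ x : Fin m, x ≠ φ g x := by
      intro x hx
      rw [hφa] at hx
      have h4 : e.symm x = (π g : Q ⧸ N) * e.symm x := by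
        conv_lhs => rw [hx]
        simp
      have h5 : (π g : Q ⧸ N) = 1 := by
        have := mul_eq_right.mp h4.symm
        exact this
      exact h _ (Finset.mem_image_of_mem π hg) h1 ((QuotientGroup.eq_one_iff _).mp h5)
    rw [Finset.sum_congr rfl fun x _ => if_neg (h2 x)]
    simp [h1, hδ]

end Pool.Agent.Lib.MP_8f66f0_al_Twist
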