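import Mathlib
import Pool.Agent.Lib.MP_8f66f0_al_Wreath.DetClass
import Pool.Agent.Lib.MP_8f66f0_al_Twist.Descent
import Pool.Agent.Lib.MP_8f66f0_al_Twist.RF

/-! The theorem on twisted Fuglede-Kadison determinants. -/

set_option autoImplicit false

namespace Pool.Agent.Lib.MP_8f66f0_al_Twist

open Pool.Agent.Lib.MP_8f66f0_al_Dennis Pool.Agent.Lib.MP_8f66f0_al_Wreath

theorem isLocalFDTrace_quot {Γ Q : Type*} [Group Γ] [Group Q] (π : Γ →* Q)
    (hQ : ∀ K : Subgroup Q, K.FG → ResFinite K) : IsLocalFDTrace (quotTrace π) := by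
  intro H hH
  have hG : Group.FG H := (Group.fg_iff_subgroup_fg H).mpr hH
  have hK : (H.map π).FG := (Group.fg_iff_subgroup_fg _).mp
    (Group.fg_of_surjective (π.subgroupMap_surjective H))
  have h := isFDTrace_quot (hQ _ hK) (π.subgroupMap H)
  intro F δ hδ
  obtain ⟨m, σ, hm, h5⟩ := h F δ hδ
  refine ⟨m, σ, hm, fun g hg => ?_⟩
  have h6 := h5 g hg
  simp only at h6
  have h3 : π g = 1 ↔ (π.subgroupMap H) g = 1 := by
    rw [Subtype.ext_iff]
    rfl
  by_cases h4 : (π.subgroupMap H) g = 1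
  · rw [if_pos h4] at h6
    have h7 : quotTrace π (g : Γ) = 1 := if_pos (h3.mpr h4)
    simp only
    rw [h7]
    exact h6
  · rw [if_neg h4] at h6
    have h7 : quotTrace π (g : Γ) = 0 := if_neg (fun h8 => h4 (h3.mp h8))
    simp only
    rw [h7]
    exact h6

theorem exists_element.{w, u} {Γ : Type u} [Group Γ]
    (htf : ∀ g : Γ, ∀ n : ℕ, 0 < n → g ^ n = 1 → g = 1) (hΓ : DetClass.{w} Γ)
    {n : ℕ} {A B : Matrix (Fin n) (Fin n) (MonoidAlgebra ℤ Γ)} (hAB : A * B = 1)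
    (hBA : B * A = 1) :
    ∃ γ : Γ, ∀ (k : ℕ) (ρ : Γ →* Matrix.GeneralLinearGroup (Fin k) ℂ) (τ : Γ → ℂ),
      IsLocalFDTrace τ →
      HasLogDet τ (twist ρ A) (Real.log ‖(ρ γ : Matrix (Fin k) (Fin k) ℂ).det‖) := by
  obtain ⟨H, hH, A', B', hAB', hBA', hA', -⟩ := exists_descent A B hAB hBA
  have htfH : ∀ g : H, ∀ n : ℕ, 0 < n → g ^ n = 1 → g = 1 := by
    intro g n hn h
    refine Subtype.ext (htf g n hn ?_)
    have := congrArg (fun x : H => (x : Γ)) h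
    simpa using this
  have hΓH : DetClass.{w} H := DetClass.sub Γ H H.subtype H.subtype_injective hΓ
  obtain ⟨γ, ε, hε, hall⟩ := det_of_locally_goodQ.{u, 0}
    (fun K hK => goodQ_of_detClass htfH hΓH K hK) hAB' hBA'
  refine ⟨γ, fun k ρ τ hτ => ?_⟩
  exact hasLogDet_of_subgroup ρ hA' (hasLogDet_twist hBA' hε (fun l ρ' => hall ℂ l ρ')
    (ρ.comp H.subtype) (hτ H hH))

end Pool.Agent.Lib.MP_8f66f0_al_Twist
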